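import Mathlib

/-!
# Dope matrices of triples: definitions
-/

set_option autoImplicit false

namespace Pool.Agent.H50.Dope

open Polynomial

/-- The dope matrix of `P` (columns `0, ..., n`) for the triple `L`: entry `(i, j)` says that the
`j`-th derivative of `P` vanishes at `L i`. -/
def dope (n : ℕ) (L : Fin 3 → ℂ) (P : ℂ[X]) : Fin 3 → Fin (n + 1) → Prop :=
  fun i j => (derivative^[(j : ℕ)] P).eval (L i) = 0

/-- All dope matrices of polynomials of degree exactly `n`. -/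
def dopeSet (n : ℕ) (L : Fin 3 → ℂ) : Set (Fin 3 → Fin (n + 1) → Prop) :=
  {M | ∃ P : ℂ[X], P ≠ 0 ∧ P.natDegree = n ∧ M = dope n L P}

/-- Equivalence of triples. -/
def Equivalent (L L' : Fin 3 → ℂ) : Prop := ∀ n : ℕ, dopeSet n L = dopeSet n L'

/-- The numbers `z`, `1 - z`, `z / (z - 1)`. -/
noncomputable def tau (z : ℂ) : Fin 3 → ℂ := ![z, 1 - z, z / (z - 1)]

/-- `∑ C(w, y) ∏_{e ∈ E} (y - e) (-x) ^ (w - y)`. -/
def binSum (w : ℕ) (E : Finset ℕ) (x : ℂ) : ℂ :=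
  ∑ y ∈ Finset.range (w + 1), (w.choose y : ℂ) * (∏ e ∈ E, ((y : ℂ) - (e : ℂ))) * (-x) ^ (w - y)

/-- `h` is irreducible of degree one, or of degree two with a negative real root. -/
def Low (h : ℚ[X]) : Prop :=
  Irreducible h ∧ (h.natDegree = 1 ∨ h.natDegree = 2 ∧ ∃ r : ℝ, r < 0 ∧ aeval r h = 0)

/-- `t` is a root of unity, or its minimal polynomial is `h (X ^ k)` with `k ≥ 1` and `Low h`. -/
def Good (t : ℂ) : Prop :=
  (∃ n : ℕ, 0 < n ∧ t ^ n = 1) ∨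
  ∃ (k : ℕ) (h : ℚ[X]), 1 ≤ k ∧ Low h ∧ minpoly ℚ t = h.comp (X ^ k)

end Pool.Agent.H50.Dope
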