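import Pool.Agent.H50.Dope.Defs

set_option autoImplicit false

namespace Pool.Agent.H50.Dope

open Polynomial Finset

/-! ### Falling factorials -/

theorem fact_desc (n d y : ℕ) (hd : d ≤ n) (hy : y ≤ n) :
    y.factorial * (n - d).descFactorial (n - y) = (n - d).factorial * y.descFactorial d := by
  rcases lt_or_ge y d with h | h
  · rw [Nat.descFactorial_of_lt h, Nat.descFactorial_of_lt (by omega)]
    ring
  · have e1 := Nat.factorial_mul_descFactorial (n := n - d) (k := n - y) (by omega)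
    have e2 := Nat.factorial_mul_descFactorial (n := y) (k := d) h
    rw [show n - d - (n - y) = y - d by omega] at e1
    have hp : 0 < (y - d).factorial := Nat.factorial_pos _
    apply Nat.eq_of_mul_eq_mul_left hp
    calc (y - d).factorial * (y.factorial * (n - d).descFactorial (n - y))
        = y.factorial * ((y - d).factorial * (n - d).descFactorial (n - y)) := by ring
      _ = ((y - d).factorial * y.descFactorial d) * (n - d).factorial := by rw [e1, e2]
      _ = (y - d).factorial * ((n - d).factorial * y.descFactorial d) := by ring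

theorem exists_desc : ∀ (m : ℕ) (H : ℂ[X]), H.natDegree ≤ m →
    ∃ a : ℕ → ℂ, H = ∑ d ∈ range (m + 1), C (a d) * descPochhammer ℂ d := by
  intro m
  induction m with
  | zero =>
    intro H hH
    refine ⟨fun _ => H.coeff 0, ?_⟩
    rw [sum_range_one, descPochhammer_zero, mul_one]
    exact eq_C_of_natDegree_le_zero hH
  | succ m ih =>
    intro H hH
    have hmon : (descPochhammer ℂ (m + 1)).Monic := monic_descPochhammer ℂ (m + 1)
    have hdeg : (descPochhammer ℂ (m + 1)).natDegree = m + 1 := descPochhammer_natDegree ℂ (m + 1)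
    obtain ⟨a, ha⟩ := ih (H - C (H.coeff (m + 1)) * descPochhammer ℂ (m + 1)) (by
      rw [natDegree_le_iff_coeff_eq_zero]
      intro N hN
      rw [coeff_sub, coeff_C_mul]
      rcases Nat.lt_or_ge (m + 1) N with h | h
      · rw [coeff_eq_zero_of_natDegree_lt (lt_of_le_of_lt hH h),
          coeff_eq_zero_of_natDegree_lt (p := descPochhammer ℂ (m + 1)) (n := N)
            (by rw [hdeg]; exact h)]
        ring
      · have : N = m + 1 := by omega
        subst this
        have : (descPochhammer ℂ (m + 1)).coeff (m + 1) = 1 := by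
          have := hmon.coeff_natDegree
          rwa [hdeg] at this
        rw [this]
        ring)
    refine ⟨fun d => if d = m + 1 then H.coeff (m + 1) else a d, ?_⟩
    rw [sum_range_succ]
    have e : ∑ d ∈ range (m + 1), C (if d = m + 1 then H.coeff (m + 1) else a d) *
        descPochhammer ℂ d = ∑ d ∈ range (m + 1), C (a d) * descPochhammer ℂ d := by
      apply sum_congr rfl
      intro d hd
      rw [if_neg (by rw [mem_range] at hd; omega)]
    have e2 : (fun d => if d = m + 1 then H.coeff (m + 1) else a d) (m + 1) = H.coeff (m + 1) :=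
      if_pos rfl
    rw [e, ← ha, e2]
    ring

/-- the polynomial with top coefficients `r` -/
noncomputable def top (n m : ℕ) (r : ℕ → ℂ) : ℂ[X] := ∑ d ∈ range (m + 1), C (r d) * X ^ (n - d)

/-- its transform -/
noncomputable def trf (n m : ℕ) (r : ℕ → ℂ) : ℂ[X] :=
  ∑ d ∈ range (m + 1), C (r d * ((n - d).factorial : ℂ)) * descPochhammer ℂ d

theorem natDegree_trf (n m : ℕ) (r : ℕ → ℂ) : (trf n m r).natDegree ≤ m := by
  unfold trf
  apply natDegree_sum_le_of_forall_le
  intro d hd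
  rw [mem_range] at hd
  refine (natDegree_C_mul_le _ _).trans ?_
  rw [descPochhammer_natDegree]
  omega

theorem natDegree_top (n m : ℕ) (r : ℕ → ℂ) : (top n m r).natDegree ≤ n := by
  unfold top
  apply natDegree_sum_le_of_forall_le
  intro d hd
  refine (natDegree_C_mul_le _ _).trans ?_
  rw [natDegree_X_pow]
  omega

theorem eval_top (n m : ℕ) (hmn : m ≤ n) (r : ℕ → ℂ) (y : ℕ) (hy : y ≤ n) :
    (y.factorial : ℂ) * (derivative^[n - y] (top n m r)).eval 1 = (trf n m r).eval (y : ℂ) := by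
  unfold top trf
  rw [iterate_derivative_sum, eval_finsetSum, eval_finsetSum, mul_sum]
  apply sum_congr rfl
  intro d hd
  rw [mem_range] at hd
  rw [iterate_derivative_C_mul, iterate_derivative_X_pow_eq_natCast_mul, eval_mul, eval_mul,
    eval_pow, eval_C, eval_X, eval_natCast, one_pow, mul_one, eval_mul, eval_C,
    descPochhammer_eval_eq_descFactorial]
  have := fact_desc n d y (by omega) hy
  have h2 : (y.factorial : ℂ) * ((n - d).descFactorial (n - y) : ℂ) =
      ((n - d).factorial : ℂ) * (y.descFactorial d : ℂ) := by exact_mod_cast this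
  linear_combination (r d) * h2

theorem taylor_form (n w : ℕ) (hw : w ≤ n) (R : ℂ[X]) (hR : R.natDegree ≤ n) (Hf : ℕ → ℂ)
    (hH : ∀ y ≤ n, (y.factorial : ℂ) * (derivative^[n - y] R).eval 1 = Hf y) (x : ℂ) :
    (w.factorial : ℂ) * (derivative^[n - w] R).eval x =
      ∑ y ∈ range (w + 1), (w.choose y : ℂ) * Hf y * (x - 1) ^ (w - y) := by
  set p : ℂ[X] := derivative^[n - w] R with hp
  have hpd : p.natDegree ≤ w := by
    refine (natDegree_iterate_derivative R (n - w)).trans ?_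
    omega
  have e1 : p.eval x = (taylor 1 p).eval (x - 1) := by
    rw [taylor_eval]
    congr 1
    ring
  have hlt : (taylor (1 : ℂ) p).natDegree < w + 1 := by
    rw [natDegree_taylor]
    omega
  rw [e1, eval_eq_sum_range' hlt, mul_sum, ← sum_range_reflect]
  apply sum_congr rfl
  intro y hy
  rw [mem_range] at hy
  have hy' : y ≤ w := by omega
  rw [show w + 1 - 1 - y = w - y by omega, taylor_coeff]
  have h3 : ((w - y).factorial : ℂ) * (hasseDeriv (w - y) p).eval 1 =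
      (derivative^[n - y] R).eval 1 := by
    have h4 := congrArg (fun q : ℂ[X] => q.eval 1)
      (congrFun (factorial_smul_hasseDeriv (R := ℂ) (k := w - y)) p)
    simp only [nsmul_eq_mul] at h4
    rw [hp, ← Function.iterate_add_apply, show w - y + (n - w) = n - y by omega] at h4
    rw [hp]
    simpa using h4
  have h5 := hH y (by omega)
  have h6 : ((w.choose y : ℕ) : ℂ) * (y.factorial : ℂ) * ((w - y).factorial : ℂ) =
      (w.factorial : ℂ) := by exact_mod_cast Nat.choose_mul_factorial_mul_factorial hy'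
  rw [← h5, ← h3, ← h6]
  ring


theorem top_of_zero {n m : ℕ} (hmn : m ≤ n) {R : ℂ[X]} (hd : R.natDegree ≤ n)
    (h0 : ∀ j < n - m, (derivative^[j] R).eval 0 = 0) :
    R = top n m (fun d => R.coeff (n - d)) := by
  have hc : ∀ j < n - m, R.coeff j = 0 := by
    intro j hj
    have := h0 j hj
    rw [← coeff_zero_eq_eval_zero, coeff_iterate_derivative] at this
    simp only [zero_add, nsmul_eq_mul, mul_eq_zero, Nat.cast_eq_zero,
      Nat.descFactorial_eq_zero_iff_lt, lt_self_iff_false, false_or] at this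
    exact this
  ext j
  unfold top
  rw [finsetSum_coeff]
  simp only [coeff_C_mul, coeff_X_pow, mul_ite, mul_one, mul_zero]
  rcases lt_or_ge n j with h | h
  · rw [coeff_eq_zero_of_natDegree_lt (by omega), sum_eq_zero]
    intro d _
    rw [if_neg (by omega)]
  · rcases lt_or_ge j (n - m) with h' | h'
    · rw [hc j h', sum_eq_zero]
      intro d hd'
      rw [mem_range] at hd'
      rw [if_neg (by omega)]
    · rw [sum_eq_single (n - j)]
      · rw [if_pos (by omega), show n - (n - j) = j by omega]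
      · intro d hd' hne
        rw [mem_range] at hd'
        rw [if_neg (by omega)]
      · intro hn
        exact absurd (mem_range.2 (by omega)) hn

theorem top_zero (n m : ℕ) (hmn : m ≤ n) (r : ℕ → ℂ) (j : ℕ) (hj : j < n - m) :
    (derivative^[j] (top n m r)).eval 0 = 0 := by
  rw [← coeff_zero_eq_eval_zero, coeff_iterate_derivative, zero_add]
  have : (top n m r).coeff j = 0 := by
    unfold top
    rw [finsetSum_coeff]
    apply sum_eq_zero
    intro d hd
    rw [mem_range] at hd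
    rw [coeff_C_mul, coeff_X_pow, if_neg (by omega), mul_zero]
  rw [this, smul_zero]

theorem top_coeff (n m : ℕ) (hmn : m ≤ n) (r : ℕ → ℂ) : (top n m r).coeff n = r 0 := by
  unfold top
  rw [finsetSum_coeff, sum_eq_single 0]
  · rw [coeff_C_mul, coeff_X_pow, if_pos (by omega), mul_one]
  · intro d hd hne
    rw [mem_range] at hd
    rw [coeff_C_mul, coeff_X_pow, if_neg (by omega), mul_zero]
  · intro h
    exact absurd (mem_range.2 (by omega)) h

theorem trf_zero (n m : ℕ) (r : ℕ → ℂ) : (trf n m r).eval 0 = r 0 * (n.factorial : ℂ) := by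
  unfold trf
  rw [eval_finsetSum, sum_eq_single 0]
  · rw [eval_mul, eval_C, descPochhammer_zero, eval_one, mul_one, Nat.sub_zero]
  · intro d hd hne
    have h0 : (descPochhammer ℂ d).eval 0 = 0 := by
      have := descPochhammer_eval_eq_descFactorial ℂ 0 d
      rw [Nat.cast_zero] at this
      rw [this, Nat.descFactorial_of_lt (by omega), Nat.cast_zero]
    rw [eval_mul, h0, mul_zero]
  · intro h
    exact absurd (mem_range.2 (by omega)) h

/-! ### Affine changes of the variable -/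

theorem iter_comp (P : ℂ[X]) (p s : ℂ) (j : ℕ) :
    derivative^[j] (P.comp (C p + C s * X)) =
      C (s ^ j) * (derivative^[j] P).comp (C p + C s * X) := by
  induction j with
  | zero => simp
  | succ j ih =>
    rw [Function.iterate_succ_apply', ih, derivative_C_mul, derivative_comp,
      Function.iterate_succ_apply']
    simp only [derivative_add, derivative_C, derivative_mul, derivative_X, zero_add, zero_mul,
      mul_one]
    rw [pow_succ, C_mul]
    ring

theorem eval_iter_comp (P : ℂ[X]) (p s t : ℂ) (j : ℕ) :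
    (derivative^[j] (P.comp (C p + C s * X))).eval t =
      s ^ j * (derivative^[j] P).eval (p + s * t) := by
  rw [iter_comp, eval_mul, eval_C, eval_comp]
  simp

theorem natDegree_comp_lin (P : ℂ[X]) (p s : ℂ) (hs : s ≠ 0) :
    (P.comp (C p + C s * X)).natDegree = P.natDegree := by
  rw [natDegree_comp]
  have : (C p + C s * X : ℂ[X]).natDegree = 1 := by
    rw [add_comm]; exact natDegree_linear hs
  rw [this, mul_one]

theorem comp_lin_ne_zero {P : ℂ[X]} (hP : P ≠ 0) (p s : ℂ) (hs : s ≠ 0) :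
    P.comp (C p + C s * X) ≠ 0 := by
  intro h
  have hd := natDegree_comp_lin P p s hs
  rw [h, natDegree_zero] at hd
  obtain ⟨c, rfl⟩ : ∃ c, P = C c := ⟨P.coeff 0, eq_C_of_natDegree_eq_zero hd.symm⟩
  rw [C_comp] at h
  exact hP h

/-! ### Transfer of a pattern -/

theorem transfer {L L' : Fin 3 → ℂ} (hE : Equivalent L L') (i0 i1 i2 : Fin 3)
    (h1 : L i1 ≠ L i0) (h1' : L' i1 ≠ L' i0) (B : Finset ℕ) (hB : 0 ∉ B) (w : ℕ)
    (hμ : ∑ y ∈ range (w + 1), (w.choose y : ℂ) * (∏ b ∈ B, ((y : ℂ) - (b : ℂ))) *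
      ((L i2 - L i0) / (L i1 - L i0) - 1) ^ (w - y) = 0) :
    ∑ y ∈ range (w + 1), (w.choose y : ℂ) * (∏ b ∈ B, ((y : ℂ) - (b : ℂ))) *
      ((L' i2 - L' i0) / (L' i1 - L' i0) - 1) ^ (w - y) = 0 := by
  set s : ℂ := L i1 - L i0 with hsdef
  set s' : ℂ := L' i1 - L' i0 with hs'def
  have s0 : s ≠ 0 := sub_ne_zero.2 h1
  have s0' : s' ≠ 0 := sub_ne_zero.2 h1'
  set μ : ℂ := (L i2 - L i0) / s with hμdef
  set μ' : ℂ := (L' i2 - L' i0) / s' with hμ'def
  set m : ℕ := B.card with hm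
  set n : ℕ := w + B.sup id + m with hn
  have hwn : w ≤ n := by omega
  have hmn : m ≤ n := by omega
  have hbn : ∀ b ∈ B, b ≤ n := by
    intro b hb
    have : id b ≤ B.sup id := le_sup hb
    simp only [id_eq] at this
    omega
  set Hp : ℂ[X] := ∏ b ∈ B, (X - C (b : ℂ)) with hHp
  have hHe : ∀ x : ℂ, Hp.eval x = ∏ b ∈ B, (x - (b : ℂ)) := by
    intro x
    rw [hHp, eval_prod]
    simp
  have hHd : Hp.natDegree = m := by
    rw [hHp, natDegree_prod_of_monic _ _ (fun b _ => monic_X_sub_C _)]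
    simp only [natDegree_X_sub_C, sum_const, smul_eq_mul, mul_one, hm]
  have hHm : Hp.Monic := monic_prod_of_monic _ _ (fun b _ => monic_X_sub_C _)
  have hH0 : Hp.eval 0 ≠ 0 := by
    rw [hHe, prod_ne_zero_iff]
    intro b hb
    rw [zero_sub, neg_ne_zero, Nat.cast_ne_zero]
    rintro rfl
    exact hB hb
  obtain ⟨a, ha⟩ := exists_desc m Hp hHd.le
  have hfac : ∀ k : ℕ, (k.factorial : ℂ) ≠ 0 := fun k => by exact_mod_cast k.factorial_ne_zero
  set r : ℕ → ℂ := fun d => a d / ((n - d).factorial : ℂ) with hr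
  have htrf : trf n m r = Hp := by
    rw [ha]
    unfold trf
    apply sum_congr rfl
    intro d _
    rw [hr]
    simp only
    rw [div_mul_cancel₀ _ (hfac _)]
  set R : ℂ[X] := top n m r with hR
  have hr0 : r 0 ≠ 0 := by
    have := trf_zero n m r
    rw [htrf] at this
    intro h
    rw [h, zero_mul] at this
    exact hH0 this
  have hRc : R.coeff n ≠ 0 := by
    rw [hR, top_coeff n m hmn]
    exact hr0
  have hRd : R.natDegree = n :=
    natDegree_eq_of_le_of_coeff_ne_zero (natDegree_top n m r) hRc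
  have hR0 : R ≠ 0 := by
    intro h
    rw [h, coeff_zero] at hRc
    exact hRc rfl
  have hRev : ∀ y ≤ n, (y.factorial : ℂ) * (derivative^[n - y] R).eval 1 = Hp.eval (y : ℂ) := by
    intro y hy
    rw [← htrf]
    exact eval_top n m hmn r y hy
  have hRone : ∀ b ∈ B, (derivative^[n - b] R).eval 1 = 0 := by
    intro b hb
    have h2 := hRev b (hbn b hb)
    have h3 : Hp.eval (b : ℂ) = 0 := by
      rw [hHe]
      exact prod_eq_zero hb (sub_self _)
    rw [h3] at h2
    exact (mul_eq_zero.1 h2).resolve_left (hfac b)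
  have hRmu : (derivative^[n - w] R).eval μ = 0 := by
    have h2 := taylor_form n w hwn R hRd.le (fun y => Hp.eval (y : ℂ)) hRev μ
    simp only [hHe] at h2
    rw [hμ] at h2
    exact (mul_eq_zero.1 h2).resolve_left (hfac w)
  -- the polynomial P
  set P : ℂ[X] := R.comp (C (-L i0 / s) + C (1 / s) * X) with hP
  have hs1 : (1 / s : ℂ) ≠ 0 := one_div_ne_zero s0
  have hP0 : P ≠ 0 := comp_lin_ne_zero hR0 _ _ hs1
  have hPd : P.natDegree = n := by rw [hP, natDegree_comp_lin _ _ _ hs1, hRd]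
  have hPeval : ∀ (j : ℕ) (x : ℂ), (derivative^[j] P).eval x =
      (1 / s) ^ j * (derivative^[j] R).eval ((x - L i0) / s) := by
    intro j x
    rw [hP, eval_iter_comp]
    congr 2
    field_simp
    ring
  have hmem : dope n L P ∈ dopeSet n L := ⟨P, hP0, hPd, rfl⟩
  rw [hE n] at hmem
  obtain ⟨P', hP'0, hP'd, hPP'⟩ := hmem
  have key : ∀ (i : Fin 3) (j : ℕ), j ≤ n → (derivative^[j] P).eval (L i) = 0 →
      (derivative^[j] P').eval (L' i) = 0 := by
    intro i j hj h
    have := congrFun (congrFun hPP' i) ⟨j, by omega⟩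
    simp only [dope] at this
    exact this.mp h
  set R' : ℂ[X] := P'.comp (C (L' i0) + C s' * X) with hR'
  have hR'0 : R' ≠ 0 := comp_lin_ne_zero hP'0 _ _ s0'
  have hR'd : R'.natDegree = n := by rw [hR', natDegree_comp_lin _ _ _ s0', hP'd]
  have hR'eval : ∀ (j : ℕ) (x : ℂ), (derivative^[j] R').eval x =
      s' ^ j * (derivative^[j] P').eval (L' i0 + s' * x) := by
    intro j x; rw [hR', eval_iter_comp]
  have hR'zero : ∀ j < n - m, (derivative^[j] R').eval 0 = 0 := by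
    intro j hj
    rw [hR'eval, mul_zero, add_zero, key i0 j (by omega), mul_zero]
    rw [hPeval, sub_self, zero_div, hR, top_zero n m hmn r j hj, mul_zero]
  have hR'one : ∀ b ∈ B, (derivative^[n - b] R').eval 1 = 0 := by
    intro b hb
    rw [hR'eval, show L' i0 + s' * 1 = L' i1 by rw [hs'def]; ring, key i1 _ (by omega), mul_zero]
    rw [hPeval, ← hsdef, div_self s0, hRone b hb, mul_zero]
  have hR'mu : (derivative^[n - w] R').eval μ' = 0 := by
    rw [hR'eval, show L' i0 + s' * μ' = L' i2 by rw [hμ'def]; field_simp; ring,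
      key i2 _ (by omega), mul_zero]
    rw [hPeval, ← hμdef, hRmu, mul_zero]
  have hform := top_of_zero hmn hR'd.le hR'zero
  set r' : ℕ → ℂ := fun d => R'.coeff (n - d) with hr'
  set H' : ℂ[X] := trf n m r' with hH'
  have hR'ev : ∀ y ≤ n, (y.factorial : ℂ) * (derivative^[n - y] R').eval 1 = H'.eval (y : ℂ) := by
    intro y hy
    rw [hform]
    exact eval_top n m hmn r' y hy
  have hH'b : ∀ b ∈ B, H'.eval (b : ℂ) = 0 := by
    intro b hb
    rw [← hR'ev b (hbn b hb), hR'one b hb, mul_zero]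
  have hH'0 : H'.eval 0 ≠ 0 := by
    rw [hH', trf_zero]
    refine mul_ne_zero ?_ (hfac n)
    rw [hr']
    simp only [Nat.sub_zero]
    rw [← hR'd]
    exact leadingCoeff_ne_zero.2 hR'0
  have hdvd : Hp ∣ H' := by
    rw [hHp]
    apply Finset.prod_dvd_of_coprime
    · intro b _ c _ hbc
      exact isCoprime_X_sub_C_of_isUnit_sub (sub_ne_zero.2 (by exact_mod_cast hbc)).isUnit
    · intro b hb
      rw [dvd_iff_isRoot]
      exact hH'b b hb
  obtain ⟨q, hq⟩ := hdvd
  have hH'ne : H' ≠ 0 := by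
    intro h
    rw [h, eval_zero] at hH'0
    exact hH'0 rfl
  have hq0 : q ≠ 0 := by
    intro h
    rw [h, mul_zero] at hq
    exact hH'ne hq
  have hqd : q.natDegree = 0 := by
    have h2 := natDegree_trf n m r'
    rw [← hH', hq, hHm.natDegree_mul' hq0, hHd] at h2
    omega
  obtain ⟨c, hc⟩ : ∃ c, q = C c := ⟨q.coeff 0, eq_C_of_natDegree_eq_zero hqd⟩
  have hc0 : c ≠ 0 := by
    rintro rfl
    rw [C_0] at hc
    exact hq0 hc
  have h2 := taylor_form n w hwn R' hR'd.le (fun y => H'.eval (y : ℂ)) hR'ev μ'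
  rw [hR'mu, mul_zero] at h2
  have h3 : c * ∑ y ∈ range (w + 1), (w.choose y : ℂ) * (∏ b ∈ B, ((y : ℂ) - (b : ℂ))) *
      (μ' - 1) ^ (w - y) = 0 := by
    rw [mul_sum, h2]
    apply sum_congr rfl
    intro y _
    rw [hq, hc, eval_mul, eval_C, hHe]
    ring
  exact (mul_eq_zero.1 h3).resolve_left hc0

/-! ### Multiples of `k` -/

theorem prod_sub_range (y : ℕ) (c : ℂ) :
    ∏ i ∈ range y, (c * ((y : ℂ) - (i : ℂ))) = c ^ y * (y.factorial : ℂ) := by
  rw [prod_mul_distrib, prod_const, card_range]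
  congr 1
  rw [← prod_range_add_one_eq_factorial, ← prod_range_reflect]
  push_cast
  apply prod_congr rfl
  intro i hi
  rw [mem_range] at hi
  have : ((y - 1 - i : ℕ) : ℂ) + 1 = (y : ℂ) - i := by
    have h : (y - 1 - i : ℕ) + 1 + i = y := by omega
    have h2 : ((y - 1 - i : ℕ) : ℂ) + 1 + i = y := by exact_mod_cast h
    linear_combination h2
  linear_combination -this

theorem prod_ite (y : ℕ) (c : ℂ) : ∀ N : ℕ, y ≤ N →
    ∏ i ∈ range (N + 1), (if i = y then 1 else c * ((y : ℂ) - (i : ℂ))) =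
      c ^ N * (y.factorial : ℂ) * (-1) ^ (N - y) * ((N - y).factorial : ℂ) := by
  intro N hN
  induction N, hN using Nat.le_induction with
  | base =>
    rw [prod_range_succ, if_pos rfl, mul_one, Nat.sub_self, pow_zero, Nat.factorial_zero,
      Nat.cast_one, mul_one, mul_one, ← prod_sub_range]
    apply prod_congr rfl
    intro i hi
    rw [mem_range] at hi
    rw [if_neg (by omega)]
  | succ N hN ih =>
    rw [prod_range_succ, ih, if_neg (by omega), show N + 1 - y = (N - y) + 1 by omega,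
      Nat.factorial_succ]
    have h2 : ((N - y : ℕ) : ℂ) = (N : ℂ) - y := by
      rw [Nat.cast_sub hN]
    push_cast
    rw [h2]
    ring

theorem filter_dvd (k W : ℕ) (hk : 1 ≤ k) :
    (range (k * W + 1)).filter (fun i => k ∣ i) = (range (W + 1)).image (fun j => k * j) := by
  ext i
  simp only [mem_filter, mem_range, mem_image]
  constructor
  · rintro ⟨h1, j, rfl⟩
    refine ⟨j, ?_, rfl⟩
    have : k * j ≤ k * W := by omega
    have := Nat.le_of_mul_le_mul_left this (by omega)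
    omega
  · rintro ⟨j, h1, rfl⟩
    refine ⟨?_, dvd_mul_right k j⟩
    have : k * j ≤ k * W := Nat.mul_le_mul_left k (by omega)
    omega

theorem prod_multiples (k W : ℕ) (hk : 1 ≤ k) (f : ℕ → ℂ) :
    ∏ i ∈ range (k * W + 1), f i =
      (∏ i ∈ (range (k * W + 1)).filter (fun i => ¬ k ∣ i), f i) *
        ∏ j ∈ range (W + 1), f (k * j) := by
  rw [← prod_filter_mul_prod_filter_not (range (k * W + 1)) (fun i => k ∣ i), mul_comm,
    filter_dvd k W hk, prod_image]
  intro a _ b _ hab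
  exact Nat.eq_of_mul_eq_mul_left (by omega) hab

theorem sum_multiples (k W : ℕ) (hk : 1 ≤ k) (f : ℕ → ℂ) (hf : ∀ i, i ≤ k * W → ¬ k ∣ i → f i = 0) :
    ∑ i ∈ range (k * W + 1), f i = ∑ j ∈ range (W + 1), f (k * j) := by
  rw [← sum_filter_add_sum_filter_not (range (k * W + 1)) (fun i => k ∣ i),
    filter_dvd k W hk, sum_image]
  · rw [sum_eq_zero (s := (range (k * W + 1)).filter (fun i => ¬ k ∣ i)), add_zero]
    intro i hi
    rw [mem_filter, mem_range] at hi
    exact hf i (by omega) hi.2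
  · intro a _ b _ hab
    exact Nat.eq_of_mul_eq_mul_left (by omega) hab

/-- the conditions at the second point -/
def base (k W : ℕ) (E : Finset ℕ) : Finset ℕ :=
  (range (k * W + 1)).filter (fun i => ¬ k ∣ i) ∪ E.image (fun e => k * e)

theorem zero_notMem_base (k W : ℕ) (hk : 1 ≤ k) (E : Finset ℕ) (hE : 0 ∉ E) :
    0 ∉ base k W E := by
  unfold base
  rw [mem_union, mem_filter, mem_image]
  rintro (h | ⟨e, he, h⟩)
  · exact h.2 (dvd_zero k)
  · have : e = 0 := by
      rcases Nat.mul_eq_zero.1 h with h | h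
      · omega
      · exact h
    rw [this] at he
    exact hE he

theorem prod_base (k W : ℕ) (hk : 1 ≤ k) (E : Finset ℕ) (x : ℂ) :
    ∏ b ∈ base k W E, (x - (b : ℂ)) =
      (∏ i ∈ (range (k * W + 1)).filter (fun i => ¬ k ∣ i), (x - (i : ℂ))) *
        ∏ e ∈ E, (x - (k : ℂ) * (e : ℂ)) := by
  unfold base
  rw [prod_union, prod_image]
  · congr 1
    apply prod_congr rfl
    intro e _
    push_cast
    ring
  · intro a _ b _ hab
    exact Nat.eq_of_mul_eq_mul_left (by omega) hab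
  · rw [disjoint_left]
    intro i h1 h2
    rw [mem_filter] at h1
    rw [mem_image] at h2
    obtain ⟨e, _, rfl⟩ := h2
    exact h1.2 (dvd_mul_right k e)

theorem scale (k W : ℕ) (hk : 1 ≤ k) (E : Finset ℕ) (μ : ℂ) :
    (k : ℂ) ^ W * (W.factorial : ℂ) *
      ∑ y ∈ range (k * W + 1), ((k * W).choose y : ℂ) * (∏ b ∈ base k W E, ((y : ℂ) - (b : ℂ))) *
        (μ - 1) ^ (k * W - y) =
      ((k * W).factorial : ℂ) * (k : ℂ) ^ E.card * binSum W E ((1 - μ) ^ k) := by
  rw [sum_multiples k W hk]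
  · unfold binSum
    rw [mul_sum, mul_sum]
    apply sum_congr rfl
    intro j hj
    rw [mem_range] at hj
    have hjW : j ≤ W := by omega
    have hkj : k * j ≤ k * W := Nat.mul_le_mul_left k hjW
    rw [prod_base k W hk]
    have e1 : ∏ e ∈ E, (((k * j : ℕ) : ℂ) - (k : ℂ) * (e : ℂ)) =
        (k : ℂ) ^ E.card * ∏ e ∈ E, ((j : ℂ) - (e : ℂ)) := by
      rw [← prod_const, ← prod_mul_distrib]
      apply prod_congr rfl
      intro e _
      push_cast
      ring
    rw [e1]
    set D : ℂ := ∏ i ∈ (range (k * W + 1)).filter (fun i => ¬ k ∣ i),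
      (((k * j : ℕ) : ℂ) - (i : ℂ)) with hD
    have e2 : D * ((k : ℂ) ^ W * (j.factorial : ℂ) * (-1) ^ (W - j) * ((W - j).factorial : ℂ)) =
        ((k * j).factorial : ℂ) * (-1) ^ (k * W - k * j) * ((k * W - k * j).factorial : ℂ) := by
      have h1 := prod_ite (k * j) 1 (k * W) hkj
      rw [prod_multiples k W hk, one_pow, one_mul] at h1
      rw [← h1, ← prod_ite j (k : ℂ) W hjW]
      congr 1
      · rw [hD]
        apply prod_congr rfl
        intro i hi
        rw [mem_filter] at hi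
        rw [if_neg (by
          rintro rfl
          exact hi.2 (dvd_mul_right k j)), one_mul]
      · apply prod_congr rfl
        intro i _
        by_cases hij : i = j
        · rw [if_pos hij, if_pos (by rw [hij])]
        · rw [if_neg hij, if_neg (by
            intro h
            exact hij (Nat.eq_of_mul_eq_mul_left (by omega) h))]
          push_cast
          ring
    have e3 : (((k * W).choose (k * j) : ℕ) : ℂ) * ((k * j).factorial : ℂ) *
        ((k * W - k * j).factorial : ℂ) = ((k * W).factorial : ℂ) := by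
      exact_mod_cast Nat.choose_mul_factorial_mul_factorial hkj
    have e4 : ((W.choose j : ℕ) : ℂ) * (j.factorial : ℂ) * ((W - j).factorial : ℂ) =
        (W.factorial : ℂ) := by exact_mod_cast Nat.choose_mul_factorial_mul_factorial hjW
    have e5 : k * W - k * j = k * (W - j) := by rw [Nat.mul_sub]
    have e6 : (-(1 - μ) ^ k) ^ (W - j) =
        (-1) ^ (W - j) * ((-1) ^ (k * (W - j)) * (μ - 1) ^ (k * (W - j))) := by
      rw [← mul_pow, show (-1 : ℂ) * (μ - 1) = 1 - μ by ring, pow_mul, ← mul_pow]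
      congr 1
      ring
    have e7 : ((-1 : ℂ) ^ (W - j)) * (-1) ^ (W - j) = 1 := by
      rw [← mul_pow]
      simp
    rw [e5] at e2 e3 ⊢
    rw [e6, ← e4, ← e3]
    linear_combination ((W.choose j : ℕ) : ℂ) * (((k * W).choose (k * j) : ℕ) : ℂ) *
      (k : ℂ) ^ E.card * (∏ e ∈ E, ((j : ℂ) - (e : ℂ))) * (μ - 1) ^ (k * (W - j)) *
        (-1) ^ (W - j) * e2 - ((W.choose j : ℕ) : ℂ) * (((k * W).choose (k * j) : ℕ) : ℂ) *
      (k : ℂ) ^ E.card * (∏ e ∈ E, ((j : ℂ) - (e : ℂ))) * (μ - 1) ^ (k * (W - j)) * D *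
        (k : ℂ) ^ W * (j.factorial : ℂ) * ((W - j).factorial : ℂ) * e7
  · intro i hi hki
    have : ∏ b ∈ base k W E, ((i : ℂ) - (b : ℂ)) = 0 := by
      apply prod_eq_zero (i := i)
      · unfold base
        rw [mem_union, mem_filter, mem_range]
        exact Or.inl ⟨by omega, hki⟩
      · exact sub_self _
    rw [this]
    ring

theorem transfer_k {L L' : Fin 3 → ℂ} (hE : Equivalent L L') (i0 i1 i2 : Fin 3)
    (h1 : L i0 ≠ L i1) (h1' : L' i0 ≠ L' i1) (k W : ℕ) (hk : 1 ≤ k) (E : Finset ℕ) (hE0 : 0 ∉ E)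
    (h : binSum W E (((L i2 - L i1) / (L i0 - L i1)) ^ k) = 0) :
    binSum W E (((L' i2 - L' i1) / (L' i0 - L' i1)) ^ k) = 0 := by
  have hkC : (k : ℂ) ≠ 0 := by exact_mod_cast (by omega : k ≠ 0)
  have hfac : ∀ n : ℕ, (n.factorial : ℂ) ≠ 0 := fun n => by exact_mod_cast n.factorial_ne_zero
  have e1 : ∀ (M : Fin 3 → ℂ), M i0 ≠ M i1 →
      (M i2 - M i1) / (M i0 - M i1) = 1 - (M i2 - M i0) / (M i1 - M i0) := by
    intro M hM
    have ha : M i0 - M i1 ≠ 0 := sub_ne_zero.2 hM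
    have hb : M i1 - M i0 ≠ 0 := sub_ne_zero.2 hM.symm
    field_simp
    ring
  rw [e1 L h1] at h
  rw [e1 L' h1']
  have s1 := scale k W hk E ((L i2 - L i0) / (L i1 - L i0))
  rw [h, mul_zero] at s1
  have s2 := (mul_eq_zero.1 s1).resolve_left (mul_ne_zero (pow_ne_zero _ hkC) (hfac W))
  have s3 := transfer hE i0 i1 i2 h1.symm h1'.symm (base k W E) (zero_notMem_base k W hk E hE0)
    (k * W) s2
  have s4 := scale k W hk E ((L' i2 - L' i0) / (L' i1 - L' i0))
  rw [s3, mul_zero] at s4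
  exact (mul_eq_zero.1 s4.symm).resolve_left (mul_ne_zero (hfac _) (pow_ne_zero _ hkC))

/-! ### The sums -/

theorem sum0 (w : ℕ) (s : ℂ) :
    ∑ y ∈ range (w + 1), (w.choose y : ℂ) * s ^ (w - y) = (1 + s) ^ w := by
  rw [add_pow]
  apply sum_congr rfl
  intro y _
  rw [one_pow]
  ring

theorem sum1 (v : ℕ) (s : ℂ) :
    ∑ y ∈ range (v + 1 + 1), ((v + 1).choose y : ℂ) * (y : ℂ) * s ^ (v + 1 - y) =
      ((v : ℂ) + 1) * (1 + s) ^ v := by
  rw [sum_range_succ', ← sum0, mul_sum]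
  simp only [Nat.cast_zero, mul_zero, zero_mul, add_zero]
  apply sum_congr rfl
  intro i _
  have h : (((v + 1) * v.choose i : ℕ) : ℂ) = (((v + 1).choose (i + 1) * (i + 1) : ℕ) : ℂ) := by
    exact_mod_cast Nat.add_one_mul_choose_eq v i
  push_cast at h
  rw [show v + 1 - (i + 1) = v - i by omega]
  push_cast
  linear_combination -(s ^ (v - i)) * h

theorem sum2 (v : ℕ) (s : ℂ) :
    ∑ y ∈ range (v + 2 + 1), ((v + 2).choose y : ℂ) * ((y : ℂ) * ((y : ℂ) - 1)) *
      s ^ (v + 2 - y) = ((v : ℂ) + 2) * ((v : ℂ) + 1) * (1 + s) ^ v := by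
  have h1 := sum1 v s
  rw [sum_range_succ', mul_assoc ((v : ℂ) + 2), ← h1, mul_sum]
  simp only [Nat.cast_zero, zero_mul, mul_zero, add_zero]
  apply sum_congr rfl
  intro i _
  have h : (((v + 2) * (v + 1).choose i : ℕ) : ℂ) =
      (((v + 2).choose (i + 1) * (i + 1) : ℕ) : ℂ) := by
    exact_mod_cast Nat.add_one_mul_choose_eq (v + 1) i
  push_cast at h
  rw [show v + 2 - (i + 1) = v + 1 - i by omega]
  push_cast
  linear_combination -(s ^ (v + 1 - i)) * (i : ℂ) * h

theorem binSum_empty (x : ℂ) : binSum 1 ∅ x = 1 - x := by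
  unfold binSum
  rw [sum_range_succ, sum_range_one]
  simp
  ring

theorem binSum_one (v e : ℕ) (x : ℂ) :
    binSum (v + 1) {e} x = (1 - x) ^ v * ((v : ℂ) + 1 - e + e * x) := by
  have h0 := sum0 (v + 1) (-x)
  have h1 := sum1 v (-x)
  have h : binSum (v + 1) {e} x =
      ∑ y ∈ range (v + 1 + 1), ((v + 1).choose y : ℂ) * (y : ℂ) * (-x) ^ (v + 1 - y) -
      (e : ℂ) * ∑ y ∈ range (v + 1 + 1), ((v + 1).choose y : ℂ) * (-x) ^ (v + 1 - y) := by
    unfold binSum
    rw [mul_sum, ← sum_sub_distrib]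
    apply sum_congr rfl
    intro y _
    rw [prod_singleton]
    ring
  rw [h, h0, h1, pow_succ]
  ring

theorem binSum_two (v e f : ℕ) (hef : e ≠ f) (x : ℂ) :
    binSum (v + 2) {e, f} x = (1 - x) ^ v * (((v : ℂ) + 2) * ((v : ℂ) + 1) +
      (1 - e - f) * ((v : ℂ) + 2) * (1 - x) + e * f * (1 - x) ^ 2) := by
  have h0 := sum0 (v + 2) (-x)
  have h1 := sum1 (v + 1) (-x)
  have h2 := sum2 v (-x)
  have h : binSum (v + 2) {e, f} x =
      ∑ y ∈ range (v + 2 + 1), ((v + 2).choose y : ℂ) * ((y : ℂ) * ((y : ℂ) - 1)) *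
        (-x) ^ (v + 2 - y) + (1 - (e : ℂ) - f) *
      ∑ y ∈ range (v + 1 + 1 + 1), ((v + 1 + 1).choose y : ℂ) * (y : ℂ) * (-x) ^ (v + 1 + 1 - y) +
      (e : ℂ) * f * ∑ y ∈ range (v + 2 + 1), ((v + 2).choose y : ℂ) * (-x) ^ (v + 2 - y) := by
    unfold binSum
    rw [mul_sum, mul_sum, ← sum_add_distrib, ← sum_add_distrib]
    apply sum_congr rfl
    intro y _
    rw [prod_pair hef]
    ring
  rw [h, h0, h1, h2]
  push_cast
  ring

/-! ### Rational powers -/

theorem Equivalent.symm {L L' : Fin 3 → ℂ} (h : Equivalent L L') : Equivalent L' L :=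
  fun n => (h n).symm

theorem pow_one_transfer {L L' : Fin 3 → ℂ} (hE : Equivalent L L') (i0 i1 i2 : Fin 3)
    (h1 : L i0 ≠ L i1) (h1' : L' i0 ≠ L' i1) (k : ℕ) (hk : 1 ≤ k)
    (h : ((L i2 - L i1) / (L i0 - L i1)) ^ k = 1) :
    ((L' i2 - L' i1) / (L' i0 - L' i1)) ^ k = 1 := by
  have := transfer_k hE i0 i1 i2 h1 h1' k 1 hk ∅ (notMem_empty 0)
    (by rw [binSum_empty, h, sub_self])
  rw [binSum_empty] at this
  linear_combination -this

theorem lt_one_transfer {L L' : Fin 3 → ℂ} (hE : Equivalent L L') (i0 i1 i2 : Fin 3)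
    (h1 : L i0 ≠ L i1) (h1' : L' i0 ≠ L' i1) (k : ℕ) (hk : 1 ≤ k) (c : ℚ) (hc : c < 1)
    (h : ((L i2 - L i1) / (L i0 - L i1)) ^ k = (c : ℂ)) :
    ((L' i2 - L' i1) / (L' i0 - L' i1)) ^ k = (c : ℂ) := by
  have hq : 0 < c.den := c.den_pos
  have hpq : c.num < (c.den : ℤ) := by
    have h2 : (c.num : ℚ) / (c.den : ℚ) < 1 := by rw [Rat.num_div_den]; exact hc
    have h3 : (0 : ℚ) < c.den := by exact_mod_cast hq
    rw [div_lt_one h3] at h2
    exact_mod_cast h2
  obtain ⟨v, hv⟩ : ∃ v : ℕ, (v : ℤ) = c.den - c.num - 1 := ⟨(c.den - c.num - 1).toNat, by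
    rw [Int.toNat_of_nonneg (by omega)]⟩
  have hvC : (v : ℂ) = c.den - c.num - 1 := by exact_mod_cast hv
  have hcC : (c : ℂ) = c.num / c.den := by exact_mod_cast (Rat.num_div_den c).symm
  have hqC : (c.den : ℂ) ≠ 0 := by exact_mod_cast hq.ne'
  have hval : ∀ x : ℂ, binSum (v + 1) {c.den} x = (1 - x) ^ v * ((c.den : ℂ) * x - c.num) := by
    intro x
    rw [binSum_one, hvC]
    ring
  have := transfer_k hE i0 i1 i2 h1 h1' k (v + 1) hk {c.den}
    (by rw [mem_singleton]; omega) (by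
      rw [hval, h, hcC, mul_div_cancel₀ _ hqC, sub_self, mul_zero])
  rw [hval] at this
  rcases mul_eq_zero.1 this with h2 | h2
  · exfalso
    have h3 : ((L' i2 - L' i1) / (L' i0 - L' i1)) ^ k = 1 := by
      have := eq_zero_of_pow_eq_zero h2
      linear_combination -this
    have h4 := pow_one_transfer hE.symm i0 i1 i2 h1' h1 k hk h3
    rw [h] at h4
    have h5 : c = 1 := by exact_mod_cast h4
    exact hc.ne h5
  · rw [hcC, eq_div_iff hqC]
    linear_combination h2

theorem rat_transfer {L L' : Fin 3 → ℂ} (hE : Equivalent L L') (i0 i1 i2 : Fin 3)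
    (h1 : L i0 ≠ L i1) (h1' : L' i0 ≠ L' i1) (h2 : L i2 ≠ L i1) (h2' : L' i2 ≠ L' i1)
    (k : ℕ) (hk : 1 ≤ k) (c : ℚ)
    (h : ((L i2 - L i1) / (L i0 - L i1)) ^ k = (c : ℂ)) :
    ((L' i2 - L' i1) / (L' i0 - L' i1)) ^ k = (c : ℂ) := by
  rcases lt_trichotomy c 1 with hc | hc | hc
  · exact lt_one_transfer hE i0 i1 i2 h1 h1' k hk c hc h
  · rw [hc] at h ⊢
    rw [Rat.cast_one] at h ⊢
    exact pow_one_transfer hE i0 i1 i2 h1 h1' k hk h
  · have hc0 : c ≠ 0 := by
      rintro rfl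
      norm_num at hc
    have e1 : ∀ (M : Fin 3 → ℂ), ((M i0 - M i1) / (M i2 - M i1)) ^ k =
        (((M i2 - M i1) / (M i0 - M i1)) ^ k)⁻¹ := by
      intro M
      rw [← inv_pow, inv_div]
    have h3 := lt_one_transfer hE i2 i1 i0 h2 h2' k hk c⁻¹ (by
      rw [inv_lt_one₀ (by linarith)]
      exact hc) (by
      rw [e1, h]
      push_cast
      rfl)
    rw [e1] at h3
    push_cast at h3
    exact inv_injective h3

/-! ### Pell equation -/

theorem pell {a b c : ℤ} (ha : 0 < a) (hb : 0 < b) (hc : 0 < c) (hsq : ¬ IsSquare (b ^ 2 - 4 * a * c))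
    (hpos : 0 < b ^ 2 - 4 * a * c)
    (hI : 2 * a ≤ b ∨ (b - 2 * a) ^ 2 < b ^ 2 - 4 * a * c) :
    ∃ t y1 y2 : ℕ, 0 < t ∧ y1 ≠ y2 ∧ 1 ≤ y1 ∧ 1 ≤ y2 ∧ (y1 + y2 : ℤ) = 1 + b * t ∧
      (y1 * y2 : ℤ) = a * t * (c * t + 1) := by
  obtain ⟨p', q', hpq', hq'⟩ := Pell.exists_of_not_isSquare hpos hsq
  obtain ⟨p, q, hp, hq, hpq⟩ : ∃ p q : ℤ, 0 < p ∧ 0 < q ∧
      p ^ 2 - (b ^ 2 - 4 * a * c) * q ^ 2 = 1 := by
    refine ⟨|p'|, |q'|, ?_, abs_pos.2 hq', by rw [sq_abs, sq_abs]; exact hpq'⟩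
    rw [abs_pos]
    rintro rfl
    nlinarith [sq_nonneg q', mul_nonneg hpos.le (sq_nonneg q')]
  set δ : ℤ := b ^ 2 - 4 * a * c with hδ
  set B : ℤ := b - 2 * a with hB
  have hw : 0 < q * B + p := by
    rcases hI with h | h
    · have : 0 ≤ B := by rw [hB]; omega
      positivity
    · by_contra hcon
      push Not at hcon
      have h1 : p ≤ -(q * B) := by linarith
      have h2 : p ^ 2 ≤ (q * B) ^ 2 := by nlinarith
      have h3 : (q * B) ^ 2 < q ^ 2 * δ := by
        rw [mul_pow]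
        exact mul_lt_mul_of_pos_left h (by positivity)
      nlinarith
  set t : ℤ := 2 * q * (q * B + p) with ht
  have ht0 : 0 < t := by positivity
  set e : ℤ := 2 * (q * (p * B + δ * q)) + 1 with he
  have he2 : δ * t ^ 2 + 2 * B * t + 1 = e ^ 2 := by
    have hp2 : p ^ 2 = 1 + δ * q ^ 2 := by linarith
    rw [ht, he]
    linear_combination (4 * q ^ 2 * δ - 4 * q ^ 2 * B ^ 2) * hp2
  have hs2 : e ^ 2 = (1 + b * t) ^ 2 - 4 * (a * t * (c * t + 1)) := by
    rw [← he2, hδ, hB]; ring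
  set E : ℤ := |e| with hE
  have hE2 : E ^ 2 = (1 + b * t) ^ 2 - 4 * (a * t * (c * t + 1)) := by rw [hE, sq_abs, hs2]
  have hE0 : 0 < E := by
    rw [hE, abs_pos]; omega
  have hQ : 0 < a * t * (c * t + 1) := by positivity
  have hS : 0 < 1 + b * t := by positivity
  have hES : E < 1 + b * t := by nlinarith
  -- parity
  have hpar : Even (1 + b * t + E) := by
    have h1 : Even ((1 + b * t + E) * (1 + b * t - E)) := by
      have : (1 + b * t + E) * (1 + b * t - E) = 4 * (a * t * (c * t + 1)) := by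
        linear_combination -hE2
      rw [this]
      exact ⟨2 * (a * t * (c * t + 1)), by ring⟩
    rcases Int.even_mul.1 h1 with h | h
    · exact h
    · have : (1 + b * t + E) = (1 + b * t - E) + 2 * E := by ring
      rw [this]
      exact h.add (even_two_mul E)
  obtain ⟨Y, hY⟩ := hpar
  have hY1 : 0 < Y := by omega
  have hY2 : 0 < 1 + b * t - Y := by omega
  refine ⟨t.toNat, Y.toNat, (1 + b * t - Y).toNat, by omega, ?_, by omega, by omega, ?_, ?_⟩
  · intro h
    have : Y = 1 + b * t - Y := by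
      have h1 : (Y.toNat : ℤ) = Y := Int.toNat_of_nonneg hY1.le
      have h2 : ((1 + b * t - Y).toNat : ℤ) = 1 + b * t - Y := Int.toNat_of_nonneg hY2.le
      have h3 := congrArg (fun n : ℕ => (n : ℤ)) h
      rw [h1, h2] at h3
      omega
    omega
  · rw [Int.toNat_of_nonneg hY1.le, Int.toNat_of_nonneg hY2.le, Int.toNat_of_nonneg ht0.le]
    ring
  · rw [Int.toNat_of_nonneg hY1.le, Int.toNat_of_nonneg hY2.le, Int.toNat_of_nonneg ht0.le]
    have hYe : 2 * Y = 1 + b * t + E := by linarith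
    have : 4 * (Y * (1 + b * t - Y)) = 4 * (a * t * (c * t + 1)) := by
      have e1 : 4 * (Y * (1 + b * t - Y)) = (2 * Y) * (2 * (1 + b * t) - 2 * Y) := by ring
      rw [e1, hYe]
      linear_combination -hE2
    linarith

/-! ### Quadratic powers -/

theorem quad_core {L L' : Fin 3 → ℂ} (hE : Equivalent L L') (i0 i1 i2 : Fin 3)
    (h1 : L i0 ≠ L i1) (h1' : L' i0 ≠ L' i1) (k : ℕ) (hk : 1 ≤ k)
    {a b c : ℤ} (ha : 0 < a) (hb : 0 < b) (hc : 0 < c) (hsq : ¬ IsSquare (b ^ 2 - 4 * a * c))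
    (hpos : 0 < b ^ 2 - 4 * a * c)
    (hI : 2 * a ≤ b ∨ (b - 2 * a) ^ 2 < b ^ 2 - 4 * a * c)
    (h : (a : ℂ) * (1 - ((L i2 - L i1) / (L i0 - L i1)) ^ k) ^ 2 -
      b * (1 - ((L i2 - L i1) / (L i0 - L i1)) ^ k) + c = 0) :
    (a : ℂ) * (1 - ((L' i2 - L' i1) / (L' i0 - L' i1)) ^ k) ^ 2 -
      b * (1 - ((L' i2 - L' i1) / (L' i0 - L' i1)) ^ k) + c = 0 := by
  obtain ⟨t, y1, y2, ht, hy, hy1, hy2, hs, hq⟩ := pell ha hb hc hsq hpos hI
  obtain ⟨v, hv⟩ : ∃ v : ℕ, (v : ℤ) = c * t - 1 := ⟨(c * t - 1).toNat, by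
    rw [Int.toNat_of_nonneg]
    have : 0 < c * (t : ℤ) := by positivity
    omega⟩
  have hvC : (v : ℂ) = c * t - 1 := by exact_mod_cast hv
  have hsC : (y1 : ℂ) + y2 = 1 + b * t := by exact_mod_cast hs
  have hqC : (y1 : ℂ) * y2 = a * t * (c * t + 1) := by exact_mod_cast hq
  have htC : (t : ℂ) ≠ 0 := by exact_mod_cast (by omega : t ≠ 0)
  have hwC : (c : ℂ) * t + 1 ≠ 0 := by
    have : (0 : ℤ) < c * t + 1 := by positivity
    exact_mod_cast this.ne'
  have hval : ∀ x : ℂ, binSum (v + 2) {y1, y2} x = (1 - x) ^ v * ((c * t + 1) * t *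
      ((a : ℂ) * (1 - x) ^ 2 - b * (1 - x) + c)) := by
    intro x
    rw [binSum_two v y1 y2 hy, hqC, show (1 : ℂ) - y1 - y2 = 1 - (y1 + y2) by ring, hsC, hvC]
    ring
  have h3 := transfer_k hE i0 i1 i2 h1 h1' k (v + 2) hk {y1, y2}
    (by rw [mem_insert, mem_singleton]; omega) (by rw [hval, h, mul_zero, mul_zero])
  rw [hval] at h3
  rcases mul_eq_zero.1 h3 with h4 | h4
  · exfalso
    have h5 : ((L' i2 - L' i1) / (L' i0 - L' i1)) ^ k = 1 := by
      have := eq_zero_of_pow_eq_zero h4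
      linear_combination -this
    have h6 := pow_one_transfer hE.symm i0 i1 i2 h1' h1 k hk h5
    rw [h6] at h
    have h7 : (c : ℂ) = 0 := by linear_combination h
    have h8 : c = 0 := by exact_mod_cast h7
    omega
  · exact (mul_eq_zero.1 h4).resolve_left (mul_ne_zero hwC htC)

theorem quad_direct {L L' : Fin 3 → ℂ} (hE : Equivalent L L') (i0 i1 i2 : Fin 3)
    (h1 : L i0 ≠ L i1) (h1' : L' i0 ≠ L' i1) (k : ℕ) (hk : 1 ≤ k)
    {A B C : ℤ} (hA : 0 < A) (hsq : ¬ IsSquare (B ^ 2 - 4 * A * C))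
    (hpos : 0 < B ^ 2 - 4 * A * C) (hABC : 0 < A + B + C) (hneg : C < 0 ∨ 0 < B)
    (h : (A : ℂ) * (((L i2 - L i1) / (L i0 - L i1)) ^ k) ^ 2 +
      B * ((L i2 - L i1) / (L i0 - L i1)) ^ k + C = 0) :
    (A : ℂ) * (((L' i2 - L' i1) / (L' i0 - L' i1)) ^ k) ^ 2 +
      B * ((L' i2 - L' i1) / (L' i0 - L' i1)) ^ k + C = 0 := by
  have hdisc : (2 * A + B) ^ 2 - 4 * A * (A + B + C) = B ^ 2 - 4 * A * C := by ring
  have hb : 0 < 2 * A + B := by
    rcases hneg with h | h <;> linarith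
  have h3 := quad_core hE i0 i1 i2 h1 h1' k hk (a := A) (b := 2 * A + B) (c := A + B + C)
    hA hb hABC (by rw [hdisc]; exact hsq) (by rw [hdisc]; exact hpos) (by
      rcases hneg with hC | hB
      · right
        rw [hdisc]
        nlinarith [mul_pos hA (neg_pos.2 hC)]
      · left
        linarith) (by
      push_cast
      linear_combination h)
  push_cast at h3
  linear_combination h3

theorem quad_transfer {L L' : Fin 3 → ℂ} (hE : Equivalent L L') (i0 i1 i2 : Fin 3)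
    (h1 : L i0 ≠ L i1) (h1' : L' i0 ≠ L' i1) (h2 : L i2 ≠ L i1) (h2' : L' i2 ≠ L' i1)
    (k : ℕ) (hk : 1 ≤ k)
    {A B C : ℤ} (hA : 0 < A) (hsq : ¬ IsSquare (B ^ 2 - 4 * A * C))
    (hpos : 0 < B ^ 2 - 4 * A * C) (hneg : C < 0 ∨ 0 < B)
    (h : (A : ℂ) * (((L i2 - L i1) / (L i0 - L i1)) ^ k) ^ 2 +
      B * ((L i2 - L i1) / (L i0 - L i1)) ^ k + C = 0) :
    (A : ℂ) * (((L' i2 - L' i1) / (L' i0 - L' i1)) ^ k) ^ 2 +
      B * ((L' i2 - L' i1) / (L' i0 - L' i1)) ^ k + C = 0 := by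
  have hC0 : C ≠ 0 := by
    rintro rfl
    exact hsq ⟨B, by ring⟩
  have hg10 : A + B + C ≠ 0 := by
    intro h
    have : B = -A - C := by linarith
    exact hsq ⟨A - C, by rw [this]; ring⟩
  rcases lt_or_gt_of_ne hg10 with hg | hg
  · have hC : C < 0 := by
      rcases hneg with h | h
      · exact h
      · rcases lt_or_gt_of_ne hC0 with h' | h'
        · exact h'
        · linarith
    have hx : ((L i2 - L i1) / (L i0 - L i1)) ^ k ≠ 0 :=
      pow_ne_zero _ (div_ne_zero (sub_ne_zero.2 h2) (sub_ne_zero.2 h1))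
    have hx' : ((L' i2 - L' i1) / (L' i0 - L' i1)) ^ k ≠ 0 :=
      pow_ne_zero _ (div_ne_zero (sub_ne_zero.2 h2') (sub_ne_zero.2 h1'))
    have e1 : ∀ (M : Fin 3 → ℂ), ((M i0 - M i1) / (M i2 - M i1)) ^ k =
        (((M i2 - M i1) / (M i0 - M i1)) ^ k)⁻¹ := by
      intro M
      rw [← inv_pow, inv_div]
    have h3 := quad_direct hE i2 i1 i0 h2 h2' k hk (A := -C) (B := -B) (C := -A)
      (by linarith) (by
        have : (-B) ^ 2 - 4 * -C * -A = B ^ 2 - 4 * A * C := by ring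
        rw [this]; exact hsq) (by
        have : (-B) ^ 2 - 4 * -C * -A = B ^ 2 - 4 * A * C := by ring
        rw [this]; exact hpos) (by linarith) (Or.inl (by linarith)) (by
        rw [e1]
        push_cast
        field_simp
        linear_combination -h)
    rw [e1] at h3
    push_cast at h3
    field_simp at h3
    linear_combination -h3
  · exact quad_direct hE i0 i1 i2 h1 h1' k hk hA hsq hpos hg hneg h

/-! ### Minimal polynomials -/

theorem aeval_comp_pow (h : ℚ[X]) (k : ℕ) (x : ℂ) : aeval x (h.comp (X ^ k)) = aeval (x ^ k) h := by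
  rw [aeval_comp]
  simp

theorem quad_aeval (h : ℚ[X]) (hd : h.natDegree = 2) (x : ℂ) :
    aeval x h = (h.coeff 2 : ℂ) * x ^ 2 + (h.coeff 1 : ℂ) * x + (h.coeff 0 : ℂ) := by
  have := h.as_sum_range_C_mul_X_pow
  rw [hd] at this
  simp only [Finset.sum_range_succ, Finset.sum_range_zero, zero_add, pow_zero, mul_one,
    pow_one] at this
  conv_lhs => rw [this]
  simp
  ring

theorem low_transfer {L L' : Fin 3 → ℂ} (hE : Equivalent L L') (i0 i1 i2 : Fin 3)
    (h1 : L i0 ≠ L i1) (h1' : L' i0 ≠ L' i1) (h2 : L i2 ≠ L i1) (h2' : L' i2 ≠ L' i1)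
    {t t' : ℂ} (ht : t = (L i2 - L i1) / (L i0 - L i1))
    (ht' : t' = (L' i2 - L' i1) / (L' i0 - L' i1)) (k : ℕ) (hk : 1 ≤ k) (h : ℚ[X])
    (hlow : Low h) (hroot : aeval (t ^ k) h = 0) : aeval (t' ^ k) h = 0 := by
  obtain ⟨hirr, hdeg⟩ := hlow
  have hh0 : h ≠ 0 := hirr.ne_zero
  rcases hdeg with hd | ⟨hd, r, hr, hhr⟩
  · obtain ⟨u, hu, v, rfl⟩ := natDegree_eq_one.1 hd
    simp only [map_add, map_mul, aeval_C, aeval_X, eq_ratCast] at hroot ⊢
    have huC : (u : ℂ) ≠ 0 := by exact_mod_cast hu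
    have hval : t ^ k = ((-v / u : ℚ) : ℂ) := by
      push_cast
      rw [eq_div_iff huC]
      linear_combination hroot
    have := rat_transfer hE i0 i1 i2 h1 h1' h2 h2' k hk (-v / u) (by rw [← ht]; exact hval)
    rw [← ht'] at this
    rw [this]
    push_cast
    field_simp
    ring
  · have hlc : h.coeff 2 ≠ 0 := by
      rw [← hd]
      exact leadingCoeff_ne_zero.2 hh0
    have hlcC : (h.coeff 2 : ℂ) ≠ 0 := by exact_mod_cast hlc
    set u : ℚ := h.coeff 1 / h.coeff 2 with hu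
    set v : ℚ := h.coeff 0 / h.coeff 2 with hv
    have hform : ∀ x : ℂ, aeval x h = (h.coeff 2 : ℂ) * (x ^ 2 + (u : ℂ) * x + (v : ℂ)) := by
      intro x
      rw [quad_aeval h hd, hu, hv]
      push_cast
      field_simp
    have hformR : ∀ x : ℝ, aeval x h = (h.coeff 2 : ℝ) * (x ^ 2 + (u : ℝ) * x + (v : ℝ)) := by
      intro x
      have e1 : ((aeval x h : ℝ) : ℂ) = aeval (x : ℂ) h := by
        have := aeval_algebraMap_apply ℂ x h
        simpa using this.symm
      have e2 : ((aeval x h : ℝ) : ℂ) =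
          (((h.coeff 2 : ℝ) * (x ^ 2 + (u : ℝ) * x + (v : ℝ)) : ℝ) : ℂ) := by
        rw [e1, hform]
        push_cast
        rfl
      exact_mod_cast e2
    set A : ℤ := (u.den * v.den : ℤ) with hA
    set B : ℤ := u.num * v.den with hB
    set D : ℤ := v.num * u.den with hD
    have hud : (u.den : ℚ) ≠ 0 := by exact_mod_cast u.den_nz
    have hvd : (v.den : ℚ) ≠ 0 := by exact_mod_cast v.den_nz
    have hA0 : 0 < A := by
      rw [hA]
      have h1 := u.den_pos
      have h2 := v.den_pos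
      positivity
    have hAQ : (A : ℚ) = u.den * v.den := by rw [hA]; push_cast; ring
    have huQ : u = u.num / u.den := (Rat.num_div_den u).symm
    have hvQ : v = v.num / v.den := (Rat.num_div_den v).symm
    have hBQ : (B : ℚ) = A * u := by
      rw [hAQ, hB]
      push_cast
      nth_rewrite 3 [huQ]
      field_simp
    have hDQ : (D : ℚ) = A * v := by
      rw [hAQ, hD]
      push_cast
      nth_rewrite 3 [hvQ]
      field_simp
    have hAQ0 : (A : ℚ) ≠ 0 := by exact_mod_cast hA0.ne'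
    have hBC : (B : ℂ) = A * u := by exact_mod_cast congrArg (fun q : ℚ => (q : ℂ)) hBQ
    have hDC : (D : ℂ) = A * v := by exact_mod_cast congrArg (fun q : ℚ => (q : ℂ)) hDQ
    have hBR : (B : ℝ) = A * u := by exact_mod_cast congrArg (fun q : ℚ => (q : ℝ)) hBQ
    have hDR : (D : ℝ) = A * v := by exact_mod_cast congrArg (fun q : ℚ => (q : ℝ)) hDQ
    have hAC0 : (A : ℂ) ≠ 0 := by exact_mod_cast hA0.ne'
    have hlcR : (h.coeff 2 : ℝ) ≠ 0 := by exact_mod_cast hlc
    -- the real root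
    have hreal : (A : ℝ) * r ^ 2 + B * r + D = 0 := by
      rw [hformR] at hhr
      have := (mul_eq_zero.1 hhr).resolve_left hlcR
      rw [hBR, hDR]
      linear_combination (A : ℝ) * this
    -- the discriminant is not a square
    have hsq : ¬ IsSquare (B ^ 2 - 4 * A * D) := by
      rintro ⟨q, hq⟩
      set ρ : ℚ := (q - B) / (2 * A) with hρ
      have hρroot : (A : ℚ) * ρ ^ 2 + B * ρ + D = 0 := by
        have hq' : ((B : ℚ) ^ 2 - 4 * A * D) = q * q := by exact_mod_cast hq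
        rw [hρ]
        field_simp
        linear_combination -hq'
      have hev : h.eval ρ = 0 := by
        have e3 : aeval (ρ : ℂ) h = 0 := by
          rw [hform]
          have : (A : ℂ) * ((ρ : ℂ) ^ 2 + (u : ℂ) * ρ + v) = 0 := by
            have h5 : ((A : ℚ) * ρ ^ 2 + B * ρ + D : ℚ) = 0 := hρroot
            have h6 : (A : ℂ) * (ρ : ℂ) ^ 2 + B * ρ + D = 0 := by exact_mod_cast h5
            rw [hBC, hDC] at h6
            linear_combination h6
          rw [(mul_eq_zero.1 this).resolve_left hAC0, mul_zero]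
        have e4 : aeval (ρ : ℂ) h = ((h.eval ρ : ℚ) : ℂ) := by
          have := aeval_algebraMap_apply ℂ ρ h
          simpa using this
        rw [e4] at e3
        exact_mod_cast e3
      have h7 : h.natDegree = 1 := natDegree_eq_of_degree_eq_some (by
        rw [degree_eq_one_of_irreducible_of_root hirr (show IsRoot h ρ from hev)]
        rfl)
      rw [hd] at h7
      omega
    have hpos : 0 < B ^ 2 - 4 * A * D := by
      have h3 : (2 * (A : ℝ) * r + B) ^ 2 = ((B ^ 2 - 4 * A * D : ℤ) : ℝ) := by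
        push_cast
        linear_combination 4 * (A : ℝ) * hreal
      have h4 : (0 : ℝ) ≤ ((B ^ 2 - 4 * A * D : ℤ) : ℝ) := by rw [← h3]; positivity
      have h5 : (0 : ℤ) ≤ B ^ 2 - 4 * A * D := by exact_mod_cast h4
      rcases h5.lt_or_eq with h6 | h6
      · exact h6
      · exact absurd (h6 ▸ ⟨0, by simp⟩) hsq
    have hneg : D < 0 ∨ 0 < B := by
      by_contra hcon
      push Not at hcon
      obtain ⟨hc1, hc2⟩ := hcon
      have h3 : (0 : ℝ) ≤ D := by exact_mod_cast hc1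
      have h4 : (B : ℝ) ≤ 0 := by exact_mod_cast hc2
      have h5 : (0 : ℝ) < A := by exact_mod_cast hA0
      nlinarith [mul_pos h5 (mul_pos_of_neg_of_neg hr hr), mul_nonneg_of_nonpos_of_nonpos h4 hr.le]
    have hg : (A : ℂ) * (t ^ k) ^ 2 + B * t ^ k + D = 0 := by
      rw [hform] at hroot
      have := (mul_eq_zero.1 hroot).resolve_left hlcC
      rw [hBC, hDC]
      linear_combination (A : ℂ) * this
    rw [ht] at hg
    have hfin := quad_transfer hE i0 i1 i2 h1 h1' h2 h2' k hk hA0 hsq hpos hneg hg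
    rw [← ht'] at hfin
    rw [hform]
    have : (A : ℂ) * ((t' ^ k) ^ 2 + (u : ℂ) * t' ^ k + (v : ℂ)) = 0 := by
      rw [hBC, hDC] at hfin
      linear_combination hfin
    rw [(mul_eq_zero.1 this).resolve_left hAC0, mul_zero]

theorem good_transfer {L L' : Fin 3 → ℂ} (hE : Equivalent L L') (i0 i1 i2 : Fin 3)
    (h1 : L i0 ≠ L i1) (h1' : L' i0 ≠ L' i1) (h2 : L i2 ≠ L i1) (h2' : L' i2 ≠ L' i1)
    {t t' : ℂ} (ht : t = (L i2 - L i1) / (L i0 - L i1))
    (ht' : t' = (L' i2 - L' i1) / (L' i0 - L' i1)) (hg : Good t) :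
    IsIntegral ℚ t ∧ aeval t' (minpoly ℚ t) = 0 := by
  rcases hg with ⟨n, hn, hpow⟩ | ⟨k, h, hk, hlow, hmin⟩
  · have hfin : IsOfFinOrder t := isOfFinOrder_iff_pow_eq_one.2 ⟨n, hn, hpow⟩
    have ho : 0 < orderOf t := hfin.orderOf_pos
    have hprim : IsPrimitiveRoot t (orderOf t) := IsPrimitiveRoot.orderOf t
    have hprim' : IsPrimitiveRoot t' (orderOf t) := by
      constructor
      · rw [ht']
        apply pow_one_transfer hE i0 i1 i2 h1 h1' (orderOf t) ho
        rw [← ht]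
        exact pow_orderOf_eq_one t
      · intro l hl
        rcases Nat.eq_zero_or_pos l with h0 | h0
        · rw [h0]
          exact dvd_zero _
        · apply orderOf_dvd_of_pow_eq_one
          rw [ht]
          apply pow_one_transfer hE.symm i0 i1 i2 h1' h1 l h0
          rw [← ht']
          exact hl
    have e1 := cyclotomic_eq_minpoly_rat hprim ho
    have e2 := cyclotomic_eq_minpoly_rat hprim' ho
    refine ⟨⟨X ^ n - 1, monic_X_pow_sub_C 1 hn.ne', by simp [hpow]⟩, ?_⟩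
    rw [← e1, e2]
    exact minpoly.aeval ℚ t'
  · have hcomp : (h.comp (X ^ k)).natDegree = h.natDegree * k := by
      rw [natDegree_comp, natDegree_X_pow]
    have hd0 : 1 ≤ h.natDegree := by
      rcases hlow.2 with hd | ⟨hd, _⟩ <;> omega
    have hne : minpoly ℚ t ≠ 0 := by
      intro h0
      rw [hmin] at h0
      rw [h0, natDegree_zero] at hcomp
      have := Nat.mul_pos hd0 hk
      omega
    refine ⟨minpoly.ne_zero_iff.1 hne, ?_⟩
    rw [hmin, aeval_comp_pow]
    apply low_transfer hE i0 i1 i2 h1 h1' h2 h2' ht ht' k hk h hlow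
    rw [← aeval_comp_pow, ← hmin, minpoly.aeval]

/-! ### From the associated numbers to `z` -/

theorem minpoly_of {z z' : ℂ} (hz : IsIntegral ℚ z) (h : aeval z' (minpoly ℚ z) = 0) :
    IsAlgebraic ℚ z' ∧ minpoly ℚ z' = minpoly ℚ z := by
  have hmon := minpoly.monic hz
  exact ⟨⟨minpoly ℚ z, hmon.ne_zero, h⟩,
    (minpoly.eq_of_irreducible_of_monic (minpoly.irreducible hz) h hmon).symm⟩

theorem mob_one {z z' : ℂ} (h1 : IsIntegral ℚ (1 - z))
    (h2 : aeval (1 - z') (minpoly ℚ (1 - z)) = 0) :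
    IsIntegral ℚ z ∧ aeval z' (minpoly ℚ z) = 0 := by
  have hz : IsIntegral ℚ z := by
    have := (isIntegral_one (R := ℚ) (B := ℂ)).sub h1
    simpa using this
  refine ⟨hz, ?_⟩
  have hdvd : minpoly ℚ (1 - z) ∣ (minpoly ℚ z).comp (1 - X) := by
    apply minpoly.dvd
    rw [aeval_comp]
    simp
  have h3 := aeval_eq_zero_of_dvd_aeval_eq_zero hdvd h2
  rw [aeval_comp] at h3
  simpa using h3

/-- `(X - 1) ^ n p (X / (X - 1))` -/
noncomputable def mobPoly (p : ℚ[X]) : ℚ[X] :=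
  ∑ i ∈ range (p.natDegree + 1), C (p.coeff i) * X ^ i * (X - 1) ^ (p.natDegree - i)

theorem aeval_mobPoly (p : ℚ[X]) (x : ℂ) (hx : x ≠ 1) :
    aeval x (mobPoly p) = (x - 1) ^ p.natDegree * aeval (x / (x - 1)) p := by
  have hx1 : x - 1 ≠ 0 := sub_ne_zero.2 hx
  unfold mobPoly
  rw [map_sum, aeval_eq_sum_range, mul_sum]
  apply sum_congr rfl
  intro i hi
  rw [mem_range] at hi
  simp only [map_mul, map_pow, map_sub, aeval_C, aeval_X, map_one, Algebra.smul_def]
  have : (x - 1) ^ p.natDegree = (x - 1) ^ i * (x - 1) ^ (p.natDegree - i) := by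
    rw [← pow_add]
    congr 1
    omega
  rw [this, div_pow]
  have h2 : (x - 1) ^ i ≠ 0 := pow_ne_zero _ hx1
  field_simp

theorem mob_two {z z' : ℂ} (hz1 : z ≠ 1) (hz1' : z' ≠ 1) (h1 : IsIntegral ℚ (z / (z - 1)))
    (h2 : aeval (z' / (z' - 1)) (minpoly ℚ (z / (z - 1))) = 0) :
    IsIntegral ℚ z ∧ aeval z' (minpoly ℚ z) = 0 := by
  have key : ∀ w : ℂ, w ≠ 1 → w / (w - 1) ≠ 1 ∧ (w / (w - 1)) / (w / (w - 1) - 1) = w := by
    intro w hw
    have hw1 : w - 1 ≠ 0 := sub_ne_zero.2 hw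
    have e : w / (w - 1) - 1 = 1 / (w - 1) := by field_simp; ring
    constructor
    · rw [← sub_ne_zero, e]
      exact one_div_ne_zero hw1
    · rw [e]
      field_simp
  obtain ⟨k1, k2⟩ := key z hz1
  obtain ⟨k1', k2'⟩ := key z' hz1'
  have hz : IsIntegral ℚ z := by
    rw [← k2]
    rw [← isAlgebraic_iff_isIntegral] at h1 ⊢
    rw [div_eq_mul_inv]
    exact h1.mul (h1.sub isAlgebraic_one).inv
  refine ⟨hz, ?_⟩
  have hdvd : minpoly ℚ (z / (z - 1)) ∣ mobPoly (minpoly ℚ z) := by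
    apply minpoly.dvd
    rw [aeval_mobPoly _ _ k1, k2, minpoly.aeval, mul_zero]
  have h3 := aeval_eq_zero_of_dvd_aeval_eq_zero hdvd h2
  rw [aeval_mobPoly _ _ k1', k2'] at h3
  exact (mul_eq_zero.1 h3).resolve_left (pow_ne_zero _ (sub_ne_zero.2 k1'))

theorem tau_nodes (i : Fin 3) : ∃ i0 i1 i2 : Fin 3, ∀ z : ℂ, z ≠ 0 → z ≠ 1 →
    (![0, 1, z] : Fin 3 → ℂ) i0 ≠ (![0, 1, z] : Fin 3 → ℂ) i1 ∧
    (![0, 1, z] : Fin 3 → ℂ) i2 ≠ (![0, 1, z] : Fin 3 → ℂ) i1 ∧
    tau z i = ((![0, 1, z] : Fin 3 → ℂ) i2 - (![0, 1, z] : Fin 3 → ℂ) i1) /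
      ((![0, 1, z] : Fin 3 → ℂ) i0 - (![0, 1, z] : Fin 3 → ℂ) i1) := by
  fin_cases i
  · refine ⟨1, 0, 2, fun z h0 h1 => ?_⟩
    simp [tau, h0]
  · refine ⟨0, 1, 2, fun z h0 h1 => ?_⟩
    simp [tau, h1]
    ring
  · refine ⟨1, 2, 0, fun z h0 h1 => ?_⟩
    have hz1 : z - 1 ≠ 0 := sub_ne_zero.2 h1
    have hz2 : 1 - z ≠ 0 := sub_ne_zero.2 (Ne.symm h1)
    refine ⟨by simpa using Ne.symm h1, by simpa using Ne.symm h0, ?_⟩
    simp [tau]
    field_simp
    ring

theorem main : ∀ z z' : ℂ, z ≠ 0 → z ≠ 1 → z' ≠ 0 → z' ≠ 1 → Equivalent ![0, 1, z] ![0, 1, z'] →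
    (∀ (i : Fin 3) (k : ℤ) (w : ℕ) (E : Finset ℕ), k ≠ 0 → 0 ∉ E →
      (binSum w E (tau z i ^ k) = 0 ↔ binSum w E (tau z' i ^ k) = 0)) ∧
    (∀ (i : Fin 3) (k : ℤ) (h : ℚ[X]), k ≠ 0 → Low h →
      (aeval (tau z i ^ k) h = 0 ↔ aeval (tau z' i ^ k) h = 0)) ∧
    ((∃ i, Good (tau z i)) → IsAlgebraic ℚ z' ∧ minpoly ℚ z' = minpoly ℚ z) := by
  have one : ∀ z z' : ℂ, z ≠ 0 → z ≠ 1 → z' ≠ 0 → z' ≠ 1 → Equivalent ![0, 1, z] ![0, 1, z'] →
    (∀ (i : Fin 3) (k : ℤ) (w : ℕ) (E : Finset ℕ), k ≠ 0 → 0 ∉ E →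
      (binSum w E (tau z i ^ k) = 0 → binSum w E (tau z' i ^ k) = 0)) ∧
    (∀ (i : Fin 3) (k : ℤ) (h : ℚ[X]), k ≠ 0 → Low h →
      (aeval (tau z i ^ k) h = 0 → aeval (tau z' i ^ k) h = 0)) := by
    intro z z' hz0 hz1 hz0' hz1' hE
    have inv : ∀ (a b : ℂ) (k : ℕ), (a / b) ^ (-(k : ℤ)) = (b / a) ^ k := by
      intro a b k
      rw [zpow_neg, zpow_natCast, ← inv_pow, inv_div]
    constructor
    · intro i k w E hk hE0 h
      obtain ⟨i0, i1, i2, hi⟩ := tau_nodes i
      obtain ⟨a1, a2, a3⟩ := hi z hz0 hz1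
      obtain ⟨b1, b2, b3⟩ := hi z' hz0' hz1'
      rw [a3] at h
      rw [b3]
      obtain ⟨n, rfl | rfl⟩ := k.eq_nat_or_neg
      · rw [zpow_natCast] at h ⊢
        exact transfer_k hE i0 i1 i2 a1 b1 n w (by omega) E hE0 h
      · rw [inv] at h ⊢
        exact transfer_k hE i2 i1 i0 a2 b2 n w (by omega) E hE0 h
    · intro i k q hk hq h
      obtain ⟨i0, i1, i2, hi⟩ := tau_nodes i
      obtain ⟨a1, a2, a3⟩ := hi z hz0 hz1
      obtain ⟨b1, b2, b3⟩ := hi z' hz0' hz1'
      rw [a3] at h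
      rw [b3]
      obtain ⟨n, rfl | rfl⟩ := k.eq_nat_or_neg
      · rw [zpow_natCast] at h ⊢
        exact low_transfer hE i0 i1 i2 a1 b1 a2 b2 rfl rfl n (by omega) q hq h
      · rw [inv] at h ⊢
        exact low_transfer hE i2 i1 i0 a2 b2 a1 b1 rfl rfl n (by omega) q hq h
  intro z z' hz0 hz1 hz0' hz1' hE
  obtain ⟨o1, o2⟩ := one z z' hz0 hz1 hz0' hz1' hE
  obtain ⟨o1', o2'⟩ := one z' z hz0' hz1' hz0 hz1 hE.symm
  refine ⟨fun i k w E hk hE0 => ⟨o1 i k w E hk hE0, o1' i k w E hk hE0⟩,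
    fun i k h hk hq => ⟨o2 i k h hk hq, o2' i k h hk hq⟩, ?_⟩
  rintro ⟨i, hg⟩
  obtain ⟨i0, i1, i2, hi⟩ := tau_nodes i
  obtain ⟨a1, a2, a3⟩ := hi z hz0 hz1
  obtain ⟨b1, b2, b3⟩ := hi z' hz0' hz1'
  obtain ⟨g1, g2⟩ := good_transfer hE i0 i1 i2 a1 b1 a2 b2 a3 b3 hg
  have fin : IsIntegral ℚ z ∧ aeval z' (minpoly ℚ z) = 0 := by
    fin_cases i
    · exact ⟨g1, g2⟩
    · exact mob_one g1 g2
    · exact mob_two hz1 hz1' g1 g2
  exact minpoly_of fin.1 fin.2

end Pool.Agent.H50.Dope
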